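import Mathlib
import Pool.Agent.TH473.Det.Final

set_option autoImplicit false

/-!
Problem MP_ef01bd_co, question Q1 (the determinant spectrum of zero-one matrices with an
all-ones column).

The set `S_n` contains every natural number `v` with
`v * exp (1000 n^(3/5)) ≤ max (2^(s(n)) / 2^n) ((3n/16)^(n/2))`,
where `s(n)` is the total number of ones in the binary expansions of `0, 1, ..., n-1`
(for `n = 2^m` the first bound is `(n/4)^(n/2)`).
-/

namespace Pool.Agent.Results.MP_ef01bd_co.InitialSegment

open Finset Matrix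

/-- For every `n ≥ 3`, every natural number `v` with
`v * exp (1000 n^(3/5)) ≤ max (2^(s(n)) / 2^n, (3n/16)^(n/2))` belongs to `S_n`: there are
`n + 1` distinct vectors of `{0,1}^n` such that the matrix with these rows and a first column
of ones adjoined has determinant `v` in absolute value. -/
theorem result (n : ℕ) (hn : 3 ≤ n) (v : ℕ)
    (hv : (v : ℝ) * Real.exp (1000 * (n : ℝ) ^ (3 / 5 : ℝ)) ≤
      max ((2 : ℝ) ^ (∑ j ∈ range n, (Nat.digits 2 j).sum) / 2 ^ n)
        ((3 * (n : ℝ) / 16) ^ ((n : ℝ) / 2))) :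
    ∃ r : Fin (n + 1) → Fin n → ℤ, Function.Injective r ∧ (∀ i j, r i j = 0 ∨ r i j = 1) ∧
      |(Matrix.of fun i => (Fin.cons 1 (r i) : Fin (n + 1) → ℤ)).det| = v :=
  Pool.Agent.TH473.Det.main n hn v hv

end Pool.Agent.Results.MP_ef01bd_co.InitialSegment
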